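import Pool.Agent.Helper28.DB.Root

/-! The exact bound `2 n` for pairs of D0L systems whose incidence matrices satisfy an algebraic
condition. -/

set_option autoImplicit false

open Matrix Pool.Agent.Helper28.DB

namespace Pool.Agent.Results.MP_2bc838_lc.ExactBound

/-- For every root of unity `ζ ≠ 1`, every complex row vector `x` with `x M₂ = ζ x M₁` satisfies
`x M₁ = 0`. -/
def NoRoot {n : ℕ} (M₁ M₂ : Matrix (Fin n) (Fin n) ℚ) : Prop :=
  ∀ (ζ : ℂ) (m : ℕ), 0 < m → ζ ^ m = 1 → ζ ≠ 1 → ∀ x : Fin n → ℂ,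
    x ᵥ* M₂.map (fun q => (q : ℂ)) = ζ • (x ᵥ* M₁.map (fun q => (q : ℂ))) →
    x ᵥ* M₁.map (fun q => (q : ℂ)) = 0

/-- The subspace `N` is mapped injectively into itself by `v ↦ v M`. -/
def Inv {n : ℕ} (N : Submodule ℚ (Fin n → ℚ)) (M : Matrix (Fin n) (Fin n) ℚ) : Prop :=
  ∀ v ∈ N, v ᵥ* M ∈ N ∧ (v ᵥ* M = 0 → v = 0)

/-- The quotient `θ` of the actions of `M₂` and `M₁` on `N`, given by `(θ v) M₁ = v M₂`, has
finite order: its orbits, the sequences `s` in `N` with `s (i + 1) M₁ = s i M₂`, have a common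
period `m`. -/
def FinOrd {n : ℕ} (N : Submodule ℚ (Fin n → ℚ)) (M₁ M₂ : Matrix (Fin n) (Fin n) ℚ) : Prop :=
  ∃ m : ℕ, 0 < m ∧ ∀ s : ℕ → Fin n → ℚ, (∀ i, s i ∈ N) →
    (∀ i, s (i + 1) ᵥ* M₁ = s i ᵥ* M₂) → s m = s 0

/-- Two D0L sequences over an alphabet with `n` letters are equal if and only if their first
`2 n` terms coincide, provided that the incidence matrices commute, or satisfy `NoRoot`, or
commute on every subspace that both map bijectively onto itself with a quotient of finite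
order. -/
theorem result (n : ℕ) (h₁ h₂ : Fin n → List (Fin n))
    (hyp : inc h₁ * inc h₂ = inc h₂ * inc h₁ ∨ NoRoot (inc h₁) (inc h₂) ∨
      ∀ N, Inv N (inc h₁) → Inv N (inc h₂) → FinOrd N (inc h₁) (inc h₂) →
        ∀ v ∈ N, v ᵥ* (inc h₁ * inc h₂) = v ᵥ* (inc h₂ * inc h₁)) (w₁ w₂ : List (Fin n)) :
    (∀ k : ℕ, (fun u : List (Fin n) => u.flatMap h₁)^[k] w₁ =
               (fun u : List (Fin n) => u.flatMap h₂)^[k] w₂) ↔
    (∀ k : ℕ, k < 2 * n →
               (fun u : List (Fin n) => u.flatMap h₁)^[k] w₁ =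
               (fun u : List (Fin n) => u.flatMap h₂)^[k] w₂) := by
  constructor
  · intro h k _
    exact h k
  · intro h k
    refine exact' n h₁ h₂ ?_ w₁ w₂ h k
    intro N A B hA hB hfin
    replace hA : ∀ v : N, (A v : Fin n → ℚ) = (v : Fin n → ℚ) ᵥ* inc h₁ := fun v => by
      rw [hA, parM_eq]
    replace hB : ∀ v : N, (B v : Fin n → ℚ) = (v : Fin n → ℚ) ᵥ* inc h₂ := fun v => by
      rw [hB, parM_eq]
    have hcomm : (∀ v ∈ N, v ᵥ* (inc h₁ * inc h₂) = v ᵥ* (inc h₂ * inc h₁)) →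
        A * B = B * A := by
      intro hc
      ext v : 2
      change ((A (B v) : N) : Fin n → ℚ) = ((B (A v) : N) : Fin n → ℚ)
      rw [hA, hB, hB, hA, Matrix.vecMul_vecMul, Matrix.vecMul_vecMul, hc v v.2]
    rcases hyp with hc | hr | hw
    · exact hcomm fun v _ => by rw [hc]
    · have h1 := theta_eq_one (inc h₁) (inc h₂) hr N A B hA hB hfin
      have h2 : B = A := by
        have h3 : A * (A⁻¹ * B) = A * 1 := by rw [h1]
        simpa using h3
      rw [h2]
    · apply hcomm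
      have hAi : Inv N (inc h₁) := by
        intro v hv
        refine ⟨by rw [← hA ⟨v, hv⟩]; exact (A ⟨v, hv⟩).2, fun h0 => ?_⟩
        have : A ⟨v, hv⟩ = 0 := by ext1; rw [hA]; exact h0
        have := A.map_eq_zero_iff.1 this
        exact congrArg Subtype.val this
      have hBi : Inv N (inc h₂) := by
        intro v hv
        refine ⟨by rw [← hB ⟨v, hv⟩]; exact (B ⟨v, hv⟩).2, fun h0 => ?_⟩
        have : B ⟨v, hv⟩ = 0 := by ext1; rw [hB]; exact h0
        have := B.map_eq_zero_iff.1 this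
        exact congrArg Subtype.val this
      refine hw N hAi hBi ?_
      obtain ⟨m, hm, hm1⟩ := (isOfFinOrder_iff_pow_eq_one).1 hfin
      refine ⟨m, hm, fun s hs hrec => ?_⟩
      have hstep : ∀ i, (⟨s (i + 1), hs (i + 1)⟩ : N) = (A⁻¹ * B) ⟨s i, hs i⟩ := by
        intro i
        apply A.injective
        have e : A ((A⁻¹ * B) ⟨s i, hs i⟩) = (A * (A⁻¹ * B)) ⟨s i, hs i⟩ := rfl
        rw [e, mul_inv_cancel_left]
        ext1
        rw [hA, hB]
        exact hrec i
      have hpow : ∀ i, (⟨s i, hs i⟩ : N) = ((A⁻¹ * B) ^ i) ⟨s 0, hs 0⟩ := by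
        intro i
        induction i with
        | zero => rfl
        | succ i ih => rw [hstep, ih, pow_succ']; rfl
      have := hpow m
      rw [hm1] at this
      exact congrArg Subtype.val this

end Pool.Agent.Results.MP_2bc838_lc.ExactBound
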