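import Pool.Agent.Helper28.DB.All

/-! A bound on D0L sequence equivalence for all pairs of systems on `n` letters. -/

set_option autoImplicit false

/-- Two D0L sequences over an alphabet with `n` letters are equal if and only if their first
`2 n + (n - 1) (log₂ n + 2)` terms coincide. -/
theorem Pool.Agent.Results.MP_2bc838_lc.GeneralBound.result
    (n : ℕ) (h₁ h₂ : Fin n → List (Fin n)) (w₁ w₂ : List (Fin n)) :
    (∀ k : ℕ, (fun u : List (Fin n) => u.flatMap h₁)^[k] w₁ =
               (fun u : List (Fin n) => u.flatMap h₂)^[k] w₂) ↔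
    (∀ k : ℕ, k < 2 * n + (n - 1) * (Nat.log 2 n + 2) →
               (fun u : List (Fin n) => u.flatMap h₁)^[k] w₁ =
               (fun u : List (Fin n) => u.flatMap h₂)^[k] w₂) := by
  constructor
  · intro h k _
    exact h k
  · intro h k
    refine Pool.Agent.Helper28.DB.general' n h₁ h₂ w₁ w₂ (fun j hj => h j ?_) k
    rw [Nat.add_comm 2 (Nat.log 2 n)] at hj
    exact hj
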